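import Pool.Agent.W92.ET.Base

/-!
# Value of `EE`
-/

set_option autoImplicit false

open MeasureTheory Filter Topology

namespace Pool.Agent.W82.ET

open Pool.Agent.W92.ET

/-- the kernel in the variables `τ`, `t` -/
noncomputable def ker (τ t : ℝ) : ℝ :=
  Real.cos t * Real.cosh τ / (1 + (Real.cos t * Real.sinh τ) ^ 2)

theorem den_pos (τ t : ℝ) : 0 < 1 + (Real.cos t * Real.sinh τ) ^ 2 := by positivity

theorem tend_sinh : Tendsto Real.sinh atTop atTop := by
  refine tendsto_atTop_mono' atTop ?_ tendsto_id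
  filter_upwards [eventually_ge_atTop (0 : ℝ)] with x hx
  exact Real.self_le_sinh_iff.2 hx

theorem inner_deriv (t τ : ℝ) :
    HasDerivAt (fun τ => Real.arctan (Real.cos t * Real.sinh τ)) (ker τ t) τ := by
  have h1 : HasDerivAt (fun τ => Real.cos t * Real.sinh τ) (Real.cos t * Real.cosh τ) τ :=
    (Real.hasDerivAt_sinh τ).const_mul _
  have h2 := h1.arctan
  unfold ker
  convert h2 using 1
  ring

theorem inner_tend (t : ℝ) (ht : 0 < Real.cos t) :
    Tendsto (fun τ => Real.arctan (Real.cos t * Real.sinh τ)) atTop (𝓝 (Real.pi / 2)) := by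
  have h1 : Tendsto (fun τ => Real.cos t * Real.sinh τ) atTop atTop :=
    tend_sinh.const_mul_atTop ht
  exact (tendsto_nhds_of_tendsto_nhdsWithin Real.tendsto_arctan_atTop).comp h1

theorem ker_nonneg (t τ : ℝ) (ht : 0 < Real.cos t) : 0 ≤ ker τ t := by
  unfold ker
  exact div_nonneg (mul_nonneg ht.le (Real.cosh_pos τ).le) (den_pos τ t).le

theorem inner_int (t : ℝ) (ht : 0 < Real.cos t) :
    IntegrableOn (fun τ => ker τ t) (Set.Ioi 0) ∧ ∫ τ in Set.Ioi (0 : ℝ), ker τ t = Real.pi / 2 := by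
  constructor
  · exact integrableOn_Ioi_deriv_of_nonneg' (fun x _ => inner_deriv t x)
      (fun x _ => ker_nonneg t x ht) (inner_tend t ht)
  · rw [integral_Ioi_of_hasDerivAt_of_nonneg' (fun x _ => inner_deriv t x)
      (fun x _ => ker_nonneg t x ht) (inner_tend t ht)]
    simp

theorem PP_cont : Continuous PP := by
  unfold PP
  fun_prop

theorem g_cont : Continuous (fun x : ℝ × ℝ => PP (Real.sin x.2 ^ 2) * ker x.1 x.2) := by
  have h1 : Continuous (fun x : ℝ × ℝ => PP (Real.sin x.2 ^ 2)) :=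
    PP_cont.comp (by fun_prop)
  have h2 : Continuous (fun x : ℝ × ℝ => ker x.1 x.2) := by
    unfold ker
    refine Continuous.div ?_ ?_ (fun x => (den_pos x.1 x.2).ne')
    · exact (Real.continuous_cos.comp continuous_snd).mul
        (Real.continuous_cosh.comp continuous_fst)
    · exact continuous_const.add
        (((Real.continuous_cos.comp continuous_snd).mul
          (Real.continuous_sinh.comp continuous_fst)).pow 2)
  exact h1.mul h2

theorem cos_pos' {t : ℝ} (ht : t ∈ Set.Ioo 0 (Real.pi / 2)) : 0 < Real.cos t :=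
  Real.cos_pos_of_mem_Ioo ⟨by linarith [ht.1, Real.pi_pos], ht.2⟩

theorem HH_eq (h : S_HH) (τ : ℝ) (hτ : 0 < τ) :
    HH (Real.cosh τ) = ∫ t in Set.Ioo 0 (Real.pi / 2), PP (Real.sin t ^ 2) * ker τ t := by
  obtain ⟨y, hy⟩ : ∃ y, y = Real.cosh τ := ⟨_, rfl⟩
  have hy1 : 1 < y := by rw [hy]; exact Real.one_lt_cosh.2 hτ.ne'
  have hy0 : 0 < y := by linarith
  have h1 := (h y hy1).2
  have hsub := intervalIntegral.integral_comp_mul_deriv' (a := 0) (b := Real.pi / 2)
    (f := Real.sin) (f' := Real.cos)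
    (g := fun s => PP (s ^ 2) / (1 - (1 - 1 / y ^ 2) * s ^ 2))
    (fun x _ => Real.hasDerivAt_sin x) (Real.continuous_cos.continuousOn) (by
      refine ContinuousOn.div ?_ ?_ ?_
      · exact (PP_cont.comp (by fun_prop)).continuousOn
      · fun_prop
      · rintro s ⟨t, _, rfl⟩
        have hs : Real.sin t ^ 2 ≤ 1 := Real.sin_sq_le_one t
        have hy2 : 0 < 1 / y ^ 2 := by positivity
        have hy3 : 1 / y ^ 2 ≤ 1 := by
          rw [div_le_one (by positivity)]
          nlinarith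
        have : (1 - 1 / y ^ 2) * Real.sin t ^ 2 ≤ (1 - 1 / y ^ 2) * 1 :=
          mul_le_mul_of_nonneg_left hs (by linarith)
        have hpos : 0 < 1 - (1 - 1 / y ^ 2) * Real.sin t ^ 2 := by linarith
        exact hpos.ne')
  rw [Real.sin_zero, Real.sin_pi_div_two] at hsub
  rw [← hsub] at h1
  rw [← hy]
  have h2 : HH y = y⁻¹ * (y * HH y) := by field_simp
  rw [h2, h1, intervalIntegral.integral_of_le (by positivity), integral_Ioc_eq_integral_Ioo,
    ← integral_const_mul]
  refine setIntegral_congr_fun measurableSet_Ioo fun t ht => ?_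
  simp only [Function.comp]
  unfold ker
  have hch : Real.cosh τ ^ 2 = Real.sinh τ ^ 2 + 1 := Real.cosh_sq τ
  have hcs : Real.sin t ^ 2 = 1 - Real.cos t ^ 2 := Real.sin_sq t
  have hd : 1 - (1 - 1 / y ^ 2) * Real.sin t ^ 2 =
      (1 + (Real.cos t * Real.sinh τ) ^ 2) / y ^ 2 := by
    have hy2 : y ^ 2 = Real.sinh τ ^ 2 + 1 := by rw [hy]; exact hch
    rw [eq_div_iff (by positivity)]
    have e : (1 - (1 - 1 / y ^ 2) * Real.sin t ^ 2) * y ^ 2 =
        y ^ 2 - (y ^ 2 - 1) * Real.sin t ^ 2 := by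
      field_simp
    rw [e, hy2, hcs]
    ring
  rw [hd, ← hy]
  have := den_pos τ t
  field_simp

theorem swap_int : Integrable (Function.uncurry fun (τ t : ℝ) => PP (Real.sin t ^ 2) * ker τ t)
    ((volume.restrict (Set.Ioi (0 : ℝ))).prod (volume.restrict (Set.Ioo 0 (Real.pi / 2)))) := by
  have hc : Continuous (Function.uncurry fun (τ t : ℝ) => PP (Real.sin t ^ 2) * ker τ t) := g_cont
  rw [integrable_prod_iff' hc.aestronglyMeasurable]
  constructor
  · refine (ae_restrict_iff' measurableSet_Ioo).2 (Eventually.of_forall fun t ht => ?_)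
    have hh : IntegrableOn (fun τ => PP (Real.sin t ^ 2) * ker τ t) (Set.Ioi 0) :=
      ((inner_int t (cos_pos' ht)).1).const_mul (PP (Real.sin t ^ 2))
    exact hh
  · have h1 : IntegrableOn (fun t => |PP (Real.sin t ^ 2)| * (Real.pi / 2))
        (Set.Ioo 0 (Real.pi / 2)) := by
      have hcont : Continuous (fun t => |PP (Real.sin t ^ 2)| * (Real.pi / 2)) := by
        have : Continuous (fun t => PP (Real.sin t ^ 2)) := PP_cont.comp (by fun_prop)
        fun_prop
      exact (hcont.integrableOn_Icc (a := 0) (b := Real.pi / 2)).mono_set Set.Ioo_subset_Icc_self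
    refine Integrable.congr h1 ?_
    refine (ae_restrict_iff' measurableSet_Ioo).2 (Eventually.of_forall fun t ht => ?_)
    have hpos := cos_pos' ht
    have e : (fun τ => ‖Function.uncurry (fun (τ t : ℝ) => PP (Real.sin t ^ 2) * ker τ t)
        (τ, t)‖) = fun τ => |PP (Real.sin t ^ 2)| * ker τ t := by
      funext τ
      simp only [Function.uncurry, Real.norm_eq_abs, abs_mul]
      rw [abs_of_nonneg (ker_nonneg t τ hpos)]
    simp only
    rw [e, integral_const_mul, (inner_int t hpos).2]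

theorem sin_int (n : ℕ) : ∫ t in (0 : ℝ)..(Real.pi / 2), Real.sin t ^ (n + 2) =
    ((n : ℝ) + 1) / (n + 2) * ∫ t in (0 : ℝ)..(Real.pi / 2), Real.sin t ^ n := by
  rw [integral_sin_pow]
  simp

theorem ee (h : S_HH) : S_EE := by
  unfold S_EE EE
  have h1 : ∫ τ in Set.Ioi (0 : ℝ), HH (Real.cosh τ) =
      ∫ τ in Set.Ioi (0 : ℝ), ∫ t in Set.Ioo 0 (Real.pi / 2), PP (Real.sin t ^ 2) * ker τ t :=
    setIntegral_congr_fun measurableSet_Ioi fun τ hτ => HH_eq h τ hτ
  rw [h1, integral_integral_swap swap_int]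
  have h2 : ∫ t in Set.Ioo 0 (Real.pi / 2), ∫ τ in Set.Ioi (0 : ℝ), PP (Real.sin t ^ 2) * ker τ t =
      ∫ t in Set.Ioo 0 (Real.pi / 2), PP (Real.sin t ^ 2) * (Real.pi / 2) := by
    refine setIntegral_congr_fun measurableSet_Ioo fun t ht => ?_
    rw [integral_const_mul, (inner_int t (cos_pos' ht)).2]
  rw [h2, integral_mul_const, ← integral_Ioc_eq_integral_Ioo,
    ← intervalIntegral.integral_of_le (by positivity)]
  have hI : ∀ n : ℕ, IntervalIntegrable (fun t => Real.sin t ^ n) volume 0 (Real.pi / 2) :=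
    fun n => (by fun_prop : Continuous fun t => Real.sin t ^ n).intervalIntegrable _ _
  have e0 : ∫ t in (0 : ℝ)..(Real.pi / 2), Real.sin t ^ 0 = Real.pi / 2 := by simp
  have e2 : ∫ t in (0 : ℝ)..(Real.pi / 2), Real.sin t ^ 2 = 1 / 2 * (Real.pi / 2) := by
    have hh := sin_int 0
    rw [e0] at hh
    convert hh using 1
    norm_num
  have e4 := sin_int 2
  have e6 := sin_int 4
  have e8 := sin_int 6
  have e10 := sin_int 8
  norm_num at e4 e6 e8 e10
  rw [e4] at e6
  rw [e6] at e8
  rw [e8] at e10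
  have hPP : ∀ t : ℝ, PP (Real.sin t ^ 2) = 19 / 60 + 2023 / 300 * Real.sin t ^ 2
      - 6559 / 400 * Real.sin t ^ 4 + 157 / 10 * Real.sin t ^ 6 - 259 / 40 * Real.sin t ^ 8
      + 21 / 16 * Real.sin t ^ 10 := by
    intro t
    unfold PP
    ring
  have h3 : ∫ t in (0 : ℝ)..(Real.pi / 2), PP (Real.sin t ^ 2) =
      19 / 60 * (Real.pi / 2) + 2023 / 300 * (∫ t in (0 : ℝ)..(Real.pi / 2), Real.sin t ^ 2)
      - 6559 / 400 * (∫ t in (0 : ℝ)..(Real.pi / 2), Real.sin t ^ 4)
      + 157 / 10 * (∫ t in (0 : ℝ)..(Real.pi / 2), Real.sin t ^ 6)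
      - 259 / 40 * (∫ t in (0 : ℝ)..(Real.pi / 2), Real.sin t ^ 8)
      + 21 / 16 * (∫ t in (0 : ℝ)..(Real.pi / 2), Real.sin t ^ 10) := by
    simp_rw [hPP]
    rw [intervalIntegral.integral_add, intervalIntegral.integral_sub,
      intervalIntegral.integral_add, intervalIntegral.integral_sub,
      intervalIntegral.integral_add]
    · simp only [intervalIntegral.integral_const_mul, intervalIntegral.integral_const, smul_eq_mul,
        sub_zero]
      ring
    all_goals first
      | exact intervalIntegrable_const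
      | exact (Continuous.intervalIntegrable (by fun_prop) _ _)
  rw [h3, e2, e4, e6, e8, e10]
  ring

end Pool.Agent.W82.ET
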